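import Pool.Agent.H812.Tm.Spec3

/-!
# `GBox`: flow box on a regular surface
-/

set_option autoImplicit false

open Filter Topology Set Metric
open scoped ContDiff NNReal

namespace Pool.Agent.H809.TmGBox

open Pool.Agent.H812.Tm

/-- linear coordinates adapted to a functional and a vector of its kernel -/
theorem exists_coord (E : ℝ × ℝ × ℝ →L[ℝ] ℝ) (hE : E ≠ 0) (e : ℝ × ℝ × ℝ) (he : e ≠ 0)
    (hEe : E e = 0) :
    ∃ A : (ℝ × ℝ × ℝ) ≃L[ℝ] (ℝ × ℝ × ℝ), (∀ v, (A v).2.2 = E v) ∧ A e = (1, 0, 0) := by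
  obtain ⟨e1, e2, e3⟩ := e
  set a := E (1, 0, 0) with ha
  set b := E (0, 1, 0) with hb
  set c := E (0, 0, 1) with hc
  have hEv : ∀ v : ℝ × ℝ × ℝ, E v = a * v.1 + b * v.2.1 + c * v.2.2 := by
    rintro ⟨x, y, z⟩
    have h1 : ((x, y, z) : ℝ × ℝ × ℝ) = x • (1, 0, 0) + y • (0, 1, 0) + z • (0, 0, 1) := by
      simp
    rw [h1, map_add, map_add, map_smul, map_smul, map_smul, ← ha, ← hb, ← hc]
    simp; ring
  have h0 : a * e1 + b * e2 + c * e3 = 0 := by rw [← hEe, hEv]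
  have hee : 0 < e1 ^ 2 + e2 ^ 2 + e3 ^ 2 := by
    by_contra h
    apply he
    have h1 : e1 ^ 2 = 0 := by nlinarith [sq_nonneg e1, sq_nonneg e2, sq_nonneg e3]
    have h2 : e2 ^ 2 = 0 := by nlinarith [sq_nonneg e1, sq_nonneg e2, sq_nonneg e3]
    have h3 : e3 ^ 2 = 0 := by nlinarith [sq_nonneg e1, sq_nonneg e2, sq_nonneg e3]
    rw [pow_eq_zero_iff two_ne_zero] at h1 h2 h3
    rw [h1, h2, h3]; rfl
  have haa : 0 < a ^ 2 + b ^ 2 + c ^ 2 := by
    by_contra h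
    apply hE
    have h1 : a ^ 2 = 0 := by nlinarith [sq_nonneg a, sq_nonneg b, sq_nonneg c]
    have h2 : b ^ 2 = 0 := by nlinarith [sq_nonneg a, sq_nonneg b, sq_nonneg c]
    have h3 : c ^ 2 = 0 := by nlinarith [sq_nonneg a, sq_nonneg b, sq_nonneg c]
    rw [pow_eq_zero_iff two_ne_zero] at h1 h2 h3
    refine ContinuousLinearMap.ext fun v => ?_
    rw [hEv, h1, h2, h3]; simp
  -- the linear map
  let L : (ℝ × ℝ × ℝ) →ₗ[ℝ] (ℝ × ℝ × ℝ) :=
    { toFun := fun v => ((e1 * v.1 + e2 * v.2.1 + e3 * v.2.2) / (e1 ^ 2 + e2 ^ 2 + e3 ^ 2),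
        (b * e3 - c * e2) * v.1 + (c * e1 - a * e3) * v.2.1 + (a * e2 - b * e1) * v.2.2,
        a * v.1 + b * v.2.1 + c * v.2.2)
      map_add' := by
        intro v w
        refine Prod.ext ?_ (Prod.ext ?_ ?_)
        · simp only [Prod.fst_add, Prod.snd_add]; ring
        · simp only [Prod.fst_add, Prod.snd_add]; ring
        · simp only [Prod.fst_add, Prod.snd_add]; ring
      map_smul' := by
        intro r v
        refine Prod.ext ?_ (Prod.ext ?_ ?_)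
        · simp only [Prod.smul_fst, Prod.smul_snd, smul_eq_mul, RingHom.id_apply]; ring
        · simp only [Prod.smul_fst, Prod.smul_snd, smul_eq_mul, RingHom.id_apply]; ring
        · simp only [Prod.smul_fst, Prod.smul_snd, smul_eq_mul, RingHom.id_apply]; ring }
  have hinj : Function.Injective L := by
    rw [← LinearMap.ker_eq_bot, LinearMap.ker_eq_bot']
    rintro ⟨x, y, z⟩ hv
    have k1 : (e1 * x + e2 * y + e3 * z) / (e1 ^ 2 + e2 ^ 2 + e3 ^ 2) = 0 := congrArg Prod.fst hv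
    have k2 : (b * e3 - c * e2) * x + (c * e1 - a * e3) * y + (a * e2 - b * e1) * z = 0 :=
      congrArg (fun w => w.2.1) hv
    have k3 : a * x + b * y + c * z = 0 := congrArg (fun w => w.2.2) hv
    have k1' : e1 * x + e2 * y + e3 * z = 0 := by
      rw [div_eq_zero_iff] at k1
      rcases k1 with k | k
      · exact k
      · exact absurd k hee.ne'
    have hpos : 0 < (e1 ^ 2 + e2 ^ 2 + e3 ^ 2) * (a ^ 2 + b ^ 2 + c ^ 2) := mul_pos hee haa
    have z1 : (e1 ^ 2 + e2 ^ 2 + e3 ^ 2) * (a ^ 2 + b ^ 2 + c ^ 2) * x = 0 := by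
      linear_combination (a ^ 2 + b ^ 2 + c ^ 2) * e1 * k1' + (b * e3 - c * e2) * k2 +
        (e1 ^ 2 + e2 ^ 2 + e3 ^ 2) * a * k3 + ((a * e1 + b * e2 + c * e3) * x -
          (a * x + b * y + c * z) * e1 - (e1 * x + e2 * y + e3 * z) * a) * h0
    have z2 : (e1 ^ 2 + e2 ^ 2 + e3 ^ 2) * (a ^ 2 + b ^ 2 + c ^ 2) * y = 0 := by
      linear_combination (a ^ 2 + b ^ 2 + c ^ 2) * e2 * k1' + (c * e1 - a * e3) * k2 +
        (e1 ^ 2 + e2 ^ 2 + e3 ^ 2) * b * k3 + ((a * e1 + b * e2 + c * e3) * y -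
          (a * x + b * y + c * z) * e2 - (e1 * x + e2 * y + e3 * z) * b) * h0
    have z3 : (e1 ^ 2 + e2 ^ 2 + e3 ^ 2) * (a ^ 2 + b ^ 2 + c ^ 2) * z = 0 := by
      linear_combination (a ^ 2 + b ^ 2 + c ^ 2) * e3 * k1' + (a * e2 - b * e1) * k2 +
        (e1 ^ 2 + e2 ^ 2 + e3 ^ 2) * c * k3 + ((a * e1 + b * e2 + c * e3) * z -
          (a * x + b * y + c * z) * e3 - (e1 * x + e2 * y + e3 * z) * c) * h0
    rw [(mul_eq_zero.1 z1).resolve_left hpos.ne', (mul_eq_zero.1 z2).resolve_left hpos.ne',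
      (mul_eq_zero.1 z3).resolve_left hpos.ne']
    rfl
  refine ⟨(LinearEquiv.ofInjectiveEndo L hinj).toContinuousLinearEquiv, ?_, ?_⟩
  · intro v
    rw [hEv]; rfl
  · show L (e1, e2, e3) = _
    refine Prod.ext ?_ (Prod.ext ?_ ?_)
    · show (e1 * e1 + e2 * e2 + e3 * e3) / (e1 ^ 2 + e2 ^ 2 + e3 ^ 2) = 1
      rw [div_eq_one_iff_eq hee.ne']; ring
    · show (b * e3 - c * e2) * e1 + (c * e1 - a * e3) * e2 + (a * e2 - b * e1) * e3 = 0
      ring
    · exact h0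

theorem tGBox (hode : GOde) : GBox := by
  intro F hF p0 hp0 hFp0 X hX hXp0 hXtan N hN
  obtain ⟨g, hg, hgX⟩ := hX
  -- values at `p0`
  have hp0S : p0 ∈ {q | F q = 0} := hp0
  have hXg : X p0 = g p0 := hgX.self_of_nhdsWithin hp0S
  have hEe : fderiv ℝ F p0 (X p0) = 0 := hXtan.self_of_nhdsWithin hp0S
  obtain ⟨A, hA, hAe⟩ := exists_coord (fderiv ℝ F p0) hFp0 (X p0) hXp0 hEe
  have hFd : Differentiable ℝ F := hF.differentiable (by simp)
  -- the coordinate map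
  set H : ℝ × ℝ × ℝ → ℝ × ℝ × ℝ := fun p => ((A (p - p0)).1, (A (p - p0)).2.1, F p) with hH
  have hHc : ContDiff ℝ 1 H := by
    have h1 : ContDiff ℝ 1 fun p : ℝ × ℝ × ℝ => A (p - p0) :=
      A.contDiff.comp (contDiff_id.sub contDiff_const)
    exact h1.fst.prodMk (h1.snd.fst.prodMk (hF.of_le (by simp)))
  have hHd : ∀ p, HasFDerivAt H ((ContinuousLinearMap.fst ℝ ℝ (ℝ × ℝ) ∘L
      (A : (ℝ × ℝ × ℝ) →L[ℝ] (ℝ × ℝ × ℝ))).prod
      (((ContinuousLinearMap.fst ℝ ℝ ℝ ∘L ContinuousLinearMap.snd ℝ ℝ (ℝ × ℝ)) ∘L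
      (A : (ℝ × ℝ × ℝ) →L[ℝ] (ℝ × ℝ × ℝ))).prod (fderiv ℝ F p))) p := by
    intro p
    have h1 : HasFDerivAt (fun p : ℝ × ℝ × ℝ => A (p - p0))
        (A : (ℝ × ℝ × ℝ) →L[ℝ] (ℝ × ℝ × ℝ)) p :=
      A.hasFDerivAt.comp p ((hasFDerivAt_id p).sub_const p0)
    exact h1.fst.prodMk (h1.snd.fst.prodMk (hFd p).hasFDerivAt)
  have hHd0 : HasFDerivAt H (A : (ℝ × ℝ × ℝ) →L[ℝ] (ℝ × ℝ × ℝ)) p0 := by
    refine (hHd p0).congr_fderiv ?_
    refine ContinuousLinearMap.ext fun v => ?_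
    refine Prod.ext rfl (Prod.ext rfl ?_)
    exact (hA v).symm
  have hHp0 : H p0 = 0 := by
    simp only [hH, sub_self, map_zero, hp0]; rfl
  have hHs : HasStrictFDerivAt H (A : (ℝ × ℝ × ℝ) →L[ℝ] (ℝ × ℝ × ℝ)) p0 :=
    hHc.contDiffAt.hasStrictFDerivAt' hHd0 one_ne_zero
  set G : ℝ × ℝ × ℝ → ℝ × ℝ × ℝ := hHc.contDiffAt.localInverse hHd0 one_ne_zero with hG
  have hG0 : G 0 = p0 := by
    rw [← hHp0]; exact hHc.contDiffAt.localInverse_apply_image hHd0 one_ne_zero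
  have hGc : ContDiffAt ℝ 1 G 0 := by
    rw [← hHp0]; exact hHc.contDiffAt.to_localInverse hHd0 one_ne_zero
  have hHG : ∀ᶠ y in 𝓝 (0 : ℝ × ℝ × ℝ), H (G y) = y := by
    rw [← hHp0]; exact hHs.eventually_right_inverse
  have hGH : ∀ᶠ p in 𝓝 p0, G (H p) = p := hHs.eventually_left_inverse
  have hGt : Tendsto G (𝓝 0) (𝓝 p0) := by
    have := hGc.continuousAt.tendsto
    rwa [hG0] at this
  have hgc1 : ∀ᶠ p in 𝓝 p0, ContDiffAt ℝ 1 g p := hg.eventually (by simp)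
  have hpos : ∀ᶠ p in 𝓝 p0, 0 < (A (g p)).1 := by
    have h1 : ContinuousAt (fun p => (A (g p)).1) p0 :=
      continuousAt_fst.comp (A.continuous.continuousAt.comp hg.continuousAt)
    have h2 : (A (g p0)).1 = 1 := by rw [← hXg, hAe]
    have h3 : (0 : ℝ) < (fun p => (A (g p)).1) p0 := by
      show 0 < (A (g p0)).1
      rw [h2]; exact one_pos
    exact h1.eventually (lt_mem_nhds h3)
  have hXg' : ∀ᶠ p in 𝓝 p0, F p = 0 → X p = g p := eventually_nhdsWithin_iff.1 hgX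
  have hXt' : ∀ᶠ p in 𝓝 p0, F p = 0 → fderiv ℝ F p (X p) = 0 := eventually_nhdsWithin_iff.1 hXtan
  have hgood : ∀ᶠ y in 𝓝 (0 : ℝ × ℝ × ℝ), (H (G y) = y ∧ ContDiffAt ℝ 1 G y) ∧
      (G y ∈ N ∧ (∀ᶠ p in 𝓝 (G y), G (H p) = p)) ∧
      (ContDiffAt ℝ 1 g (G y) ∧ 0 < (A (g (G y))).1) ∧
      ((F (G y) = 0 → X (G y) = g (G y)) ∧ (F (G y) = 0 → fderiv ℝ F (G y) (X (G y)) = 0)) :=
    (hHG.and (hGc.eventually (by simp))).and ((hGt.eventually ((show ∀ᶠ p in 𝓝 p0, p ∈ N from hN).and hGH.eventually_nhds)).and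
      ((hGt.eventually (hgc1.and hpos)).and (hGt.eventually (hXg'.and hXt'))))
  obtain ⟨ε, hε, hball⟩ := Metric.eventually_nhds_iff_ball.1 hgood
  have hin : ∀ w : ℝ × ℝ, w ∈ ball (0 : ℝ × ℝ) ε → ((w.1, w.2, 0) : ℝ × ℝ × ℝ) ∈ ball 0 ε := by
    intro w hw
    rw [mem_ball_zero_iff, Prod.norm_def, max_lt_iff] at hw ⊢
    refine ⟨hw.1, ?_⟩
    rw [Prod.norm_def, max_lt_iff]
    exact ⟨hw.2, by simpa using hε⟩
  -- the slope field
  set q : ℝ × ℝ → ℝ × ℝ × ℝ := fun w => A (g (G (w.1, w.2, 0))) with hq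
  set h : ℝ × ℝ → ℝ := fun w => (q w).2.1 / (q w).1 with hh
  have hqc : ∀ w ∈ ball (0 : ℝ × ℝ) ε, ContDiffAt ℝ 1 q w := by
    intro w hw
    have hb := hball _ (hin w hw)
    have c1 : ContDiffAt ℝ 1 (fun w : ℝ × ℝ => ((w.1, w.2, 0) : ℝ × ℝ × ℝ)) w := by fun_prop
    exact A.contDiff.contDiffAt.comp w (hb.2.2.1.1.comp w (hb.1.2.comp w c1))
  have hhc : ∀ w ∈ ball (0 : ℝ × ℝ) ε, ContDiffAt ℝ 1 h w := by
    intro w hw
    have hb := hball _ (hin w hw)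
    exact (hqc w hw).snd.fst.div (hqc w hw).fst hb.2.2.1.2.ne'
  let χ : ContDiffBump (0 : ℝ × ℝ) := ⟨ε / 3, ε / 2, by positivity, by linarith⟩
  set f : ℝ × ℝ → ℝ := fun w => χ w * h w with hf
  have hfc : ContDiff ℝ 1 f := by
    rw [contDiff_iff_contDiffAt]
    intro w
    by_cases hw : w ∈ ball (0 : ℝ × ℝ) ε
    · exact χ.contDiffAt.mul (hhc w hw)
    · have h1 : w ∉ tsupport χ := by
        rw [χ.tsupport_eq]
        intro h2
        apply hw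
        rw [mem_closedBall] at h2
        rw [mem_ball]
        exact lt_of_le_of_lt h2 (show ε / 2 < ε by linarith)
      have h2 : f =ᶠ[𝓝 w] fun _ => 0 := by
        filter_upwards [notMem_tsupport_iff_eventuallyEq.1 h1] with v hv
        rw [hf]; simp only; rw [hv]; simp
      exact contDiffAt_const.congr_of_eventuallyEq h2
  have hfs : HasCompactSupport f := χ.hasCompactSupport.mul_right
  obtain ⟨b, hbc, hb0, hba, hbt⟩ := hode f hfc hfs
  -- small parameters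
  have hbsmall : ∀ᶠ w in 𝓝 (0 : ℝ × ℝ), |b w| < ε / 3 := by
    have h1 : Tendsto (fun w => |b w|) (𝓝 (0 : ℝ × ℝ)) (𝓝 0) := by
      have := (hbc.continuous.abs).tendsto (0 : ℝ × ℝ)
      rwa [show b 0 = 0 from hb0 0, abs_zero] at this
    exact h1.eventually (gt_mem_nhds (by positivity))
  obtain ⟨ρ0, hρ0, hρb⟩ := Metric.eventually_nhds_iff_ball.1 hbsmall
  set ρ : ℝ := min ρ0 (ε / 3) with hρ
  have hρp : 0 < ρ := lt_min hρ0 (by positivity)
  set σ : ℝ → ℝ := fun s => ρ / 2 * Real.arctan s with hσ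
  have hσb : ∀ s, |σ s| < ρ := by
    intro s
    have h1 : |Real.arctan s| < 2 := by
      rw [abs_lt]
      have := Real.neg_pi_div_two_lt_arctan s
      have := Real.arctan_lt_pi_div_two s
      have := Real.pi_lt_four
      constructor <;> linarith
    rw [hσ]; simp only
    rw [abs_mul, abs_of_pos (by positivity : (0 : ℝ) < ρ / 2)]
    nlinarith
  have hσd : ∀ s, HasDerivAt σ (ρ / 2 * (1 / (1 + s ^ 2))) s := fun s =>
    (Real.hasDerivAt_arctan s).const_mul _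
  have hσp : ∀ s, 0 < ρ / 2 * (1 / (1 + s ^ 2)) := fun s => by positivity
  have hσc : ContDiff ℝ 1 σ := contDiff_const.mul Real.contDiff_arctan
  have hσi : Function.Injective σ := by
    intro s t hst
    have : Real.arctan s = Real.arctan t := by
      have h1 : ρ / 2 ≠ 0 := by positivity
      exact mul_left_cancel₀ h1 hst
    exact Real.arctan_injective this
  -- the parameter map
  set y : ℝ × ℝ → ℝ × ℝ × ℝ := fun z => (σ z.1, b (σ z.1, σ z.2), 0) with hy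
  have hw : ∀ z : ℝ × ℝ, (σ z.1, b (σ z.1, σ z.2)) ∈ closedBall (0 : ℝ × ℝ) (ε / 3) := by
    intro z
    rw [mem_closedBall_zero_iff, Prod.norm_def, max_le_iff]
    refine ⟨(hσb z.1).le.trans (min_le_right _ _), ?_⟩
    have h1 : ((σ z.1, σ z.2) : ℝ × ℝ) ∈ ball (0 : ℝ × ℝ) ρ0 := by
      rw [mem_ball_zero_iff, Prod.norm_def, max_lt_iff]
      exact ⟨(hσb z.1).trans_le (min_le_left _ _), (hσb z.2).trans_le (min_le_left _ _)⟩
    exact (hρb _ h1).le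
  have hwε : ∀ z : ℝ × ℝ, (σ z.1, b (σ z.1, σ z.2)) ∈ ball (0 : ℝ × ℝ) ε := fun z =>
    (closedBall_subset_ball (by linarith)) (hw z)
  have hyb : ∀ z, y z ∈ ball (0 : ℝ × ℝ × ℝ) ε := fun z => hin _ (hwε z)
  have hyc : ContDiff ℝ 1 y := by
    have c1 : ContDiff ℝ 1 fun z : ℝ × ℝ => σ z.1 := hσc.comp contDiff_fst
    have c2 : ContDiff ℝ 1 fun z : ℝ × ℝ => σ z.2 := hσc.comp contDiff_snd
    exact c1.prodMk ((hbc.comp (c1.prodMk c2)).prodMk contDiff_const)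
  have hyd : ∀ z u v, fderiv ℝ y z (u, v) = (ρ / 2 * (1 / (1 + z.1 ^ 2)) * u,
      fderiv ℝ b (σ z.1, σ z.2) (ρ / 2 * (1 / (1 + z.1 ^ 2)) * u,
        ρ / 2 * (1 / (1 + z.2 ^ 2)) * v), 0) := by
    intro z u v
    have c1 : HasFDerivAt (fun z : ℝ × ℝ => σ z.1) _ z :=
      (hσd z.1).hasFDerivAt.comp z hasFDerivAt_fst
    have c2 : HasFDerivAt (fun z : ℝ × ℝ => σ z.2) _ z :=
      (hσd z.2).hasFDerivAt.comp z hasFDerivAt_snd
    have c3 : HasFDerivAt (fun z : ℝ × ℝ => b (σ z.1, σ z.2)) _ z :=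
      ((hbc.differentiable one_ne_zero) (σ z.1, σ z.2)).hasFDerivAt.comp z (c1.prodMk c2)
    have c4 : HasFDerivAt y _ z := c1.prodMk (c3.prodMk (hasFDerivAt_const (0 : ℝ) z))
    rw [c4.fderiv]
    refine Prod.ext ?_ (Prod.ext ?_ rfl)
    · simp; ring
    · simp [mul_comm]
  have hb1 : ∀ a t, fderiv ℝ b (a, t) (1, 0) = f (a, b (a, t)) := by
    intro a t
    have e1 : HasDerivAt (fun s : ℝ => (s, t)) ((1 : ℝ), (0 : ℝ)) a :=
      (hasDerivAt_id a).prodMk (hasDerivAt_const a t)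
    have e2 := ((hbc.differentiable one_ne_zero) (a, t)).hasFDerivAt.comp_hasDerivAt a e1
    exact e2.unique (hba a t)
  have hbmono : ∀ a, Function.Injective fun t => b (a, t) := by
    intro a
    refine (strictMono_of_deriv_pos fun t => ?_).injective
    have e1 : HasDerivAt (fun s : ℝ => (a, s)) ((0 : ℝ), (1 : ℝ)) t :=
      (hasDerivAt_const t a).prodMk (hasDerivAt_id t)
    have e2 := ((hbc.differentiable one_ne_zero) (a, t)).hasFDerivAt.comp_hasDerivAt t e1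
    have e3 : deriv (fun t => b (a, t)) t = fderiv ℝ b (a, t) (0, 1) := e2.deriv
    rw [e3]; exact hbt a t
  -- the chart
  set φ : ℝ × ℝ → ℝ × ℝ × ℝ := fun z => G (y z) with hφ
  have hHφ : ∀ z, H (φ z) = y z := fun z => (hball _ (hyb z)).1.1
  have hφc : ContDiff ℝ 1 φ := by
    rw [contDiff_iff_contDiffAt]
    intro z
    exact (hball _ (hyb z)).1.2.comp z hyc.contDiffAt
  have hFφ : ∀ z, F (φ z) = 0 := by
    intro z
    have := congrArg (fun v => v.2.2) (hHφ z)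
    exact this
  have hHφd : ∀ z v, fderiv ℝ H (φ z) (fderiv ℝ φ z v) = fderiv ℝ y z v := by
    intro z v
    have e1 : HasFDerivAt (fun z => H (φ z)) (fderiv ℝ H (φ z) ∘L fderiv ℝ φ z) z :=
      ((hHc.differentiable one_ne_zero) (φ z)).hasFDerivAt.comp z
        ((hφc.differentiable one_ne_zero) z).hasFDerivAt
    have e2 : (fun z => H (φ z)) = y := funext hHφ
    rw [e2] at e1
    rw [e1.fderiv]; rfl
  have hHinj : ∀ z, Function.Injective (fderiv ℝ H (φ z)) := by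
    intro z
    have hb := hball _ (hyb z)
    have e1 : HasFDerivAt G (fderiv ℝ G (H (φ z))) (H (φ z)) := by
      rw [hHφ z]; exact (hb.1.2.differentiableAt one_ne_zero).hasFDerivAt
    have e2 : HasFDerivAt (fun p => G (H p)) (fderiv ℝ G (H (φ z)) ∘L fderiv ℝ H (φ z)) (φ z) :=
      e1.comp (φ z) ((hHc.differentiable one_ne_zero) (φ z)).hasFDerivAt
    have e3 : HasFDerivAt (fun p => G (H p)) (ContinuousLinearMap.id ℝ _) (φ z) :=
      (hasFDerivAt_id (φ z)).congr_of_eventuallyEq hb.2.1.2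
    have e4 := e2.unique e3
    intro v w hvw
    have e5 := congrArg (fun l : ℝ × ℝ × ℝ →L[ℝ] ℝ × ℝ × ℝ => l v) e4
    have e6 := congrArg (fun l : ℝ × ℝ × ℝ →L[ℝ] ℝ × ℝ × ℝ => l w) e4
    simp only [ContinuousLinearMap.comp_apply, ContinuousLinearMap.id_apply] at e5 e6
    rw [← e5, ← e6, hvw]
  refine ⟨φ, hφc, ?_, ?_, ?_, ?_, ?_⟩
  · intro z z' hz
    have h1 : y z = y z' := by rw [← hHφ, ← hHφ, hz]
    have h2 : σ z.1 = σ z'.1 := congrArg Prod.fst h1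
    have h3 : b (σ z.1, σ z.2) = b (σ z'.1, σ z'.2) := congrArg (fun v => v.2.1) h1
    rw [← h2] at h3
    exact Prod.ext (hσi h2) (hσi (hbmono _ h3))
  · intro z
    rw [injective_iff_map_eq_zero]
    rintro ⟨u, v⟩ huv
    have h1 := hHφd z (u, v)
    rw [huv, map_zero, hyd] at h1
    have h2 : ρ / 2 * (1 / (1 + z.1 ^ 2)) * u = 0 := (congrArg Prod.fst h1).symm
    have h3 : u = 0 := (mul_eq_zero.1 h2).resolve_left (hσp z.1).ne'
    have h4 : fderiv ℝ b (σ z.1, σ z.2) (ρ / 2 * (1 / (1 + z.1 ^ 2)) * u,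
        ρ / 2 * (1 / (1 + z.2 ^ 2)) * v) = 0 := (congrArg (fun v => v.2.1) h1).symm
    rw [h3, mul_zero] at h4
    have h5 : ((0 : ℝ), ρ / 2 * (1 / (1 + z.2 ^ 2)) * v) =
        (ρ / 2 * (1 / (1 + z.2 ^ 2)) * v) • ((0 : ℝ), (1 : ℝ)) := by simp
    rw [h5, map_smul, smul_eq_mul] at h4
    have h6 := (mul_eq_zero.1 h4).resolve_right (hbt _ _).ne'
    have h7 := (mul_eq_zero.1 h6).resolve_left (hσp z.2).ne'
    rw [h3, h7]; rfl
  · exact fun z => ⟨hFφ z, (hball _ (hyb z)).2.1.1⟩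
  · refine ⟨(0, 0), ?_⟩
    have h1 : σ 0 = 0 := by simp [hσ]
    have h2 : y (0, 0) = 0 := by
      rw [hy]; simp only; rw [h1, hb0]; rfl
    rw [hφ]; simp only; rw [h2, hG0]
  · intro z
    have hb := hball _ (hyb z)
    have hXg : X (φ z) = g (φ z) := hb.2.2.2.1 (hFφ z)
    have hXt : fderiv ℝ F (φ z) (X (φ z)) = 0 := hb.2.2.2.2 (hFφ z)
    have hq0 : 0 < (A (X (φ z))).1 := by rw [hXg]; exact hb.2.2.1.2
    refine ⟨ρ / 2 * (1 / (1 + z.1 ^ 2)) / (A (X (φ z))).1, by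
      have := hσp z.1; positivity, hHinj z ?_⟩
    rw [hHφd, hyd, map_smul, (hHd (φ z)).fderiv]
    have h1 : ((ρ / 2 * (1 / (1 + z.1 ^ 2)) * 1, ρ / 2 * (1 / (1 + z.2 ^ 2)) * 0) : ℝ × ℝ) =
        (ρ / 2 * (1 / (1 + z.1 ^ 2))) • ((1 : ℝ), (0 : ℝ)) := by simp
    rw [h1, map_smul, hb1]
    have h2 : f (σ z.1, b (σ z.1, σ z.2)) = (A (X (φ z))).2.1 / (A (X (φ z))).1 := by
      rw [hf]; simp only
      rw [χ.one_of_mem_closedBall (hw z), one_mul, hXg]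
    rw [h2]
    refine Prod.ext ?_ (Prod.ext ?_ ?_)
    · show ρ / 2 * (1 / (1 + z.1 ^ 2)) * 1 = ρ / 2 * (1 / (1 + z.1 ^ 2)) / (A (X (φ z))).1 *
        (A (X (φ z))).1
      rw [div_mul_cancel₀ _ hq0.ne', mul_one]
    · show ρ / 2 * (1 / (1 + z.1 ^ 2)) * ((A (X (φ z))).2.1 / (A (X (φ z))).1) =
        ρ / 2 * (1 / (1 + z.1 ^ 2)) / (A (X (φ z))).1 * (A (X (φ z))).2.1
      ring
    · show (0 : ℝ) = ρ / 2 * (1 / (1 + z.1 ^ 2)) / (A (X (φ z))).1 * fderiv ℝ F (φ z) (X (φ z))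
      rw [hXt, mul_zero]

end Pool.Agent.H809.TmGBox
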