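import Pool.Agent.H812.Tm.Spec3

/-!
# `GOde`: scalar differential equation, `C¹` dependence on the initial value
-/

set_option autoImplicit false

open Filter Topology Set MeasureTheory intervalIntegral Metric
open scoped ContDiff NNReal

namespace Pool.Agent.H809.TmGOde

open Pool.Agent.H812.Tm

/-- global solutions -/
theorem exists_sol {g : ℝ → ℝ → ℝ} {K L : ℝ≥0}
    (hc : Continuous (fun p : ℝ × ℝ => g p.1 p.2)) (hK : ∀ t, LipschitzWith K (g t))
    (hL : ∀ t x, ‖g t x‖ ≤ L) (x : ℝ) :
    ∃ α : ℝ → ℝ, α 0 = x ∧ ∀ t, HasDerivAt α (g t (α t)) t := by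
  have loc : ∀ T : ℝ≥0, ∃ α : ℝ → ℝ, α 0 = x ∧ ∀ t ∈ Icc (-(T : ℝ)) T,
      HasDerivWithinAt α (g t (α t)) (Icc (-(T : ℝ)) T) t := by
    intro T
    have h0 : (0 : ℝ) ∈ Icc (-(T : ℝ)) T := ⟨by simp, T.2⟩
    have hp : IsPicardLindelof g (⟨0, h0⟩ : Icc (-(T : ℝ)) T) x (L * T) 0 L K := by
      refine ⟨fun t _ => (hK t).lipschitzOnWith, fun u _ => ?_, fun t _ u _ => hL t u, ?_⟩
      · exact (hc.comp (continuous_id.prodMk continuous_const)).continuousOn
      · simp
    obtain ⟨α, h1, h2⟩ := hp.exists_eq_forall_mem_Icc_hasDerivWithinAt₀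
    exact ⟨α, h1, h2⟩
  choose α hα0 hα using loc
  have hd : ∀ (T : ℝ≥0) t, t ∈ Ioo (-(T : ℝ)) T → HasDerivAt (α T) (g t (α T t)) t :=
    fun T t ht => (hα T t (Ioo_subset_Icc_self ht)).hasDerivAt (Icc_mem_nhds ht.1 ht.2)
  have agree : ∀ S T : ℝ≥0, 0 < S → S ≤ T → EqOn (α S) (α T) (Ioo (-(S : ℝ)) S) := by
    intro S T hS hST
    have hST' : (S : ℝ) ≤ T := by exact_mod_cast hST
    have hS' : (0 : ℝ) < S := by exact_mod_cast hS
    refine ODE_solution_unique_of_mem_Ioo (v := g) (s := fun _ => univ) (K := K) (t₀ := 0)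
      (fun t _ => (hK t).lipschitzOnWith) ⟨by linarith, hS'⟩
      (fun t ht => ⟨hd S t ht, trivial⟩)
      (fun t ht => ⟨hd T t ⟨by linarith [ht.1], by linarith [ht.2]⟩, trivial⟩) ?_
    rw [hα0, hα0]
  set TT : ℝ → ℝ≥0 := fun t => ⟨|t| + 1, by positivity⟩ with hTT
  refine ⟨fun t => α (TT t) t, hα0 _, fun t => ?_⟩
  set S : ℝ≥0 := ⟨|t| + 2, by positivity⟩ with hS
  have hSr : (S : ℝ) = |t| + 2 := rfl
  have hmem : t ∈ Ioo (-(S : ℝ)) S := by
    rw [hSr]; constructor <;> cases abs_cases t <;> linarith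
  have hev : (fun s => α (TT s) s) =ᶠ[𝓝 t] α S := by
    filter_upwards [Metric.ball_mem_nhds t one_pos] with s hs
    rw [Metric.mem_ball, Real.dist_eq] at hs
    refine agree (TT s) S ?_ ?_ ?_
    · exact lt_of_lt_of_le one_pos (by
        rw [← NNReal.coe_le_coe]; show (1 : ℝ) ≤ |s| + 1; linarith [abs_nonneg s])
    · rw [← NNReal.coe_le_coe]; show |s| + 1 ≤ |t| + 2
      have := abs_sub_abs_le_abs_sub s t
      linarith
    · show s ∈ Ioo (-(|s| + 1)) (|s| + 1)
      constructor <;> cases abs_cases s <;> linarith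
  have h1 := (hd S t hmem).congr_of_eventuallyEq hev
  have h2 : α (TT t) t = α S t := hev.eq_of_nhds
  show HasDerivAt (fun s => α (TT s) s) (g t (α (TT t) t)) t
  rw [h2]; exact h1

theorem tGOde : GOde := by
  intro f hf hfc
  set fu : ℝ × ℝ → ℝ := fun p => fderiv ℝ f p (0, 1) with hfu
  have hfu_cont : Continuous fu := (hf.continuous_fderiv one_ne_zero).clm_apply continuous_const
  have hfd : Differentiable ℝ f := hf.differentiable one_ne_zero
  have hfuc : HasCompactSupport fu := by
    have := hfc.fderiv (𝕜 := ℝ)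
    exact this.comp_left (g := fun l : ℝ × ℝ →L[ℝ] ℝ => l (0, 1)) rfl
  obtain ⟨K0, hK0⟩ := hfuc.exists_bound_of_continuous hfu_cont
  obtain ⟨L0, hL0⟩ := hfc.exists_bound_of_continuous hf.continuous
  have hK0n : 0 ≤ K0 := le_trans (norm_nonneg _) (hK0 0)
  have hL0n : 0 ≤ L0 := le_trans (norm_nonneg _) (hL0 0)
  -- the derivative in the second variable
  have hdu : ∀ s u, HasDerivAt (fun v => f (s, v)) (fu (s, u)) u := by
    intro s u
    have h1 : HasFDerivAt f (fderiv ℝ f (s, u)) (s, u) := (hfd _).hasFDerivAt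
    have h2 : HasDerivAt (fun v : ℝ => (s, v)) ((0 : ℝ), (1 : ℝ)) u :=
      (hasDerivAt_const u s).prodMk (hasDerivAt_id u)
    exact h1.comp_hasDerivAt u h2
  have hlip : ∀ s, LipschitzWith ⟨K0, hK0n⟩ (fun u => f (s, u)) := by
    intro s
    refine lipschitzWith_of_nnnorm_deriv_le (fun u => (hdu s u).differentiableAt) fun u => ?_
    rw [(hdu s u).deriv]
    exact NNReal.coe_le_coe.1 (hK0 (s, u))
  choose B hB0 hBd using fun t => exists_sol (g := fun s u => f (s, u)) (K := ⟨K0, hK0n⟩)
    (L := ⟨L0, hL0n⟩) hf.continuous hlip (fun s u => hL0 _) t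
  have hBc : ∀ t, Continuous (B t) := fun t =>
    continuous_iff_continuousAt.2 fun a => (hBd t a).continuousAt
  -- the mean value of the derivative
  set m : ℝ → ℝ → ℝ → ℝ := fun t t' s =>
    ∫ σ in (0 : ℝ)..1, fu (s, B t s + σ * (B t' s - B t s)) with hm
  have hmean : ∀ t t' s, f (s, B t' s) - f (s, B t s) = m t t' s * (B t' s - B t s) := by
    intro t t' s
    have h1 : ∀ σ ∈ uIcc (0 : ℝ) 1, HasDerivAt
        (fun σ => f (s, B t s + σ * (B t' s - B t s)))
        (fu (s, B t s + σ * (B t' s - B t s)) * (B t' s - B t s)) σ := by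
      intro σ _
      have h2 : HasDerivAt (fun σ : ℝ => B t s + σ * (B t' s - B t s)) (B t' s - B t s) σ := by
        simpa using ((hasDerivAt_id σ).mul_const (B t' s - B t s)).const_add (B t s)
      exact (hdu s _).comp σ h2
    have h3 : Continuous fun σ : ℝ => fu (s, B t s + σ * (B t' s - B t s)) :=
      hfu_cont.comp (by fun_prop)
    have h4 := intervalIntegral.integral_eq_sub_of_hasDerivAt h1
      ((h3.mul continuous_const).intervalIntegrable _ _)
    rw [intervalIntegral.integral_mul_const] at h4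
    rw [hm]; simp only
    rw [h4]; simp
  have hmc : ∀ t t', Continuous (m t t') := by
    intro t t'
    refine intervalIntegral.continuous_parametric_intervalIntegral_of_continuous' ?_ 0 1
    have h1 := hBc t
    have h2 := hBc t'
    refine hfu_cont.comp ?_
    fun_prop
  have hmb : ∀ t t' s, |m t t' s| ≤ K0 := by
    intro t t' s
    have := intervalIntegral.norm_integral_le_of_norm_le_const (a := (0 : ℝ)) (b := 1)
      (f := fun σ => fu (s, B t s + σ * (B t' s - B t s))) (C := K0) (fun σ _ => hK0 _)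
    simpa using this
  have hDelta : ∀ t t' a, B t' a - B t a = (t' - t) * Real.exp (∫ s in (0 : ℝ)..a, m t t' s) := by
    intro t t' a
    set I : ℝ → ℝ := fun a => ∫ s in (0 : ℝ)..a, m t t' s with hI
    have hId : ∀ a, HasDerivAt I (m t t' a) a := fun a =>
      intervalIntegral.integral_hasDerivAt_right ((hmc t t').intervalIntegrable _ _)
        ((hmc t t').stronglyMeasurableAtFilter _ _) (hmc t t').continuousAt
    have hconst : ∀ a, HasDerivAt (fun a => (B t' a - B t a) * Real.exp (-I a)) 0 a := by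
      intro a
      have h1 := ((hBd t' a).sub (hBd t a)).mul ((hId a).neg.exp)
      refine h1.congr_deriv ?_
      have h2 := hmean t t' a
      simp only [Pi.sub_apply, Pi.neg_apply]
      rw [h2]; ring
    have h5 := is_const_of_deriv_eq_zero (f := fun a => (B t' a - B t a) * Real.exp (-I a))
      (fun a => (hconst a).differentiableAt) (fun a => (hconst a).deriv) a 0
    simp only [hB0] at h5
    have h6 : I 0 = 0 := by simp [hI]
    rw [h6] at h5
    simp only [neg_zero, Real.exp_zero, mul_one] at h5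
    rw [← h5, mul_assoc, ← Real.exp_add]
    simp [hI]
  have hDb : ∀ t t' a, |B t' a - B t a| ≤ |t' - t| * Real.exp (K0 * |a|) := by
    intro t t' a
    rw [hDelta, abs_mul, Real.abs_exp]
    refine mul_le_mul_of_nonneg_left (Real.exp_le_exp.2 ?_) (abs_nonneg _)
    have := intervalIntegral.norm_integral_le_of_norm_le_const (a := (0 : ℝ)) (b := a)
      (f := m t t') (C := K0) (fun s _ => hmb t t' s)
    rw [sub_zero] at this
    exact le_trans (le_abs_self _) this
  have hcont : Continuous fun p : ℝ × ℝ => B p.2 p.1 := by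
    rw [continuous_iff_continuousAt]
    rintro ⟨a, t⟩
    have h1 : Tendsto (fun p : ℝ × ℝ => |p.2 - t| * Real.exp (K0 * |p.1|)) (𝓝 (a, t)) (𝓝 0) := by
      have : Continuous (fun p : ℝ × ℝ => |p.2 - t| * Real.exp (K0 * |p.1|)) := by fun_prop
      have h := this.tendsto (a, t)
      simpa using h
    have h2 : Tendsto (fun p : ℝ × ℝ => B p.2 p.1 - B t p.1) (𝓝 (a, t)) (𝓝 0) :=
      squeeze_zero_norm (fun p => hDb t p.2 p.1) h1
    have h3 : Tendsto (fun p : ℝ × ℝ => B t p.1) (𝓝 (a, t)) (𝓝 (B t a)) :=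
      ((hBc t).comp continuous_fst).tendsto (a, t)
    have h4 := h2.add h3
    simp only [sub_add_cancel, zero_add] at h4
    exact h4
  -- the derivative in `t`
  set D : ℝ → ℝ → ℝ := fun a t => Real.exp (∫ s in (0 : ℝ)..a, fu (s, B t s)) with hD
  have hDc : Continuous fun p : ℝ × ℝ => D p.1 p.2 := by
    refine Real.continuous_exp.comp ?_
    refine intervalIntegral.continuous_parametric_intervalIntegral_of_continuous
      (f := fun (p : ℝ × ℝ) s => fu (s, B p.2 s)) ?_ continuous_fst
    have : Continuous fun q : (ℝ × ℝ) × ℝ => B q.1.2 q.2 :=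
      hcont.comp (f := fun q : (ℝ × ℝ) × ℝ => (q.2, q.1.2)) (by fun_prop)
    exact hfu_cont.comp (continuous_snd.prodMk this)
  have hDt : ∀ a t, HasDerivAt (fun t' => B t' a) (D a t) t := by
    intro a t
    rw [hasDerivAt_iff_tendsto_slope]
    have h1 : Continuous fun t' => Real.exp (∫ s in (0 : ℝ)..a, m t t' s) := by
      refine Real.continuous_exp.comp ?_
      refine intervalIntegral.continuous_parametric_intervalIntegral_of_continuous'
        (f := fun t' s => m t t' s) ?_ 0 a
      refine intervalIntegral.continuous_parametric_intervalIntegral_of_continuous'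
        (f := fun (q : ℝ × ℝ) σ => fu (q.2, B t q.2 + σ * (B q.1 q.2 - B t q.2))) ?_ 0 1
      refine hfu_cont.comp ?_
      have e1 : Continuous fun x : (ℝ × ℝ) × ℝ => B t x.1.2 := (hBc t).comp (by fun_prop)
      have e2 : Continuous fun x : (ℝ × ℝ) × ℝ => B x.1.1 x.1.2 :=
        hcont.comp (f := fun x : (ℝ × ℝ) × ℝ => (x.1.2, x.1.1)) (by fun_prop)
      refine Continuous.prodMk (by fun_prop) ?_
      exact e1.add (continuous_snd.mul (e2.sub e1))
    have h2 : Real.exp (∫ s in (0 : ℝ)..a, m t t s) = D a t := by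
      simp only [hD, hm]
      congr 2
      ext s
      simp
    have h3 : Tendsto (fun t' => Real.exp (∫ s in (0 : ℝ)..a, m t t' s)) (𝓝[≠] t) (𝓝 (D a t)) := by
      rw [← h2]; exact (h1.tendsto t).mono_left nhdsWithin_le_nhds
    refine h3.congr' ?_
    filter_upwards [self_mem_nhdsWithin] with t' ht'
    have ht'' : t' - t ≠ 0 := sub_ne_zero.2 ht'
    rw [slope_def_field, hDelta t t' a]
    field_simp
  have hstrict : ∀ p : ℝ × ℝ, HasStrictFDerivAt (fun p : ℝ × ℝ => B p.2 p.1)
      ((ContinuousLinearMap.toSpanSingleton ℝ (f (p.1, B p.2 p.1))).coprod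
        (ContinuousLinearMap.toSpanSingleton ℝ (D p.1 p.2))) p := by
    intro p
    have c1 : Continuous fun q : ℝ × ℝ => f (q.1, B q.2 q.1) :=
      hf.continuous.comp (continuous_fst.prodMk hcont)
    have := hasStrictFDerivAt_uncurry_coprod (𝕜 := ℝ) (u := p) (f := fun a t => B t a)
      (f₁ := fun a t => ContinuousLinearMap.toSpanSingleton ℝ (f (a, B t a)))
      (f₂ := fun a t => ContinuousLinearMap.toSpanSingleton ℝ (D a t))
      (Eventually.of_forall fun v => (hBd v.2 v.1).hasFDerivAt)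
      (Eventually.of_forall fun v => (hDt v.1 v.2).hasFDerivAt)
      (((ContinuousLinearMap.toSpanSingletonCLE (𝕜 := ℝ) (E := ℝ)).continuous.comp c1).continuousAt)
      (((ContinuousLinearMap.toSpanSingletonCLE (𝕜 := ℝ) (E := ℝ)).continuous.comp hDc).continuousAt)
    exact this
  refine ⟨fun p => B p.2 p.1, ?_, fun t => hB0 t, fun a t => hBd t a, fun a t => ?_⟩
  · rw [contDiff_one_iff_hasFDerivAt]
    refine ⟨_, ?_, fun p => (hstrict p).hasFDerivAt⟩
    have c1 : Continuous fun q : ℝ × ℝ => f (q.1, B q.2 q.1) :=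
      hf.continuous.comp (continuous_fst.prodMk hcont)
    have e1 := (ContinuousLinearMap.toSpanSingletonCLE (𝕜 := ℝ) (E := ℝ)).continuous.comp c1
    have e2 := (ContinuousLinearMap.toSpanSingletonCLE (𝕜 := ℝ) (E := ℝ)).continuous.comp hDc
    exact (ContinuousLinearMap.coprodEquivL (𝕜 := ℝ) ℝ).continuous.comp (e1.prodMk e2)
  · rw [(hstrict (a, t)).hasFDerivAt.fderiv]
    simp [hD, Real.exp_pos]

end Pool.Agent.H809.TmGOde
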